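import Pool.Agent.R723.GuessMain

/-!
# A co-guessable weighted-automaton function which is not strongly co-guessable
-/

namespace Pool.Agent.Results.MP_2c9be0_lc.CoGuessNotStrong

open Pool.Agent.R723.Guess

/-- There are a semiring `S`, a finite alphabet `A` and a function `f : A* → S` computed by a
finite weighted automaton over `S` which is co-guessable but not strongly co-guessable. -/
theorem result : ∃ (S : Type) (_ : Semiring S) (A : Type) (_ : Finite A) (f : List A → S),
    Recognizable f ∧ CoGuessable f ∧ ¬ StronglyCoGuessable f :=
  ⟨S0ᵐᵒᵖ, inferInstance, Unit, inferInstance, f1, main2⟩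

end Pool.Agent.Results.MP_2c9be0_lc.CoGuessNotStrong
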