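import Pool.Agent.R723.GuessMain

/-!
# A guessable weighted-automaton function which is not strongly guessable
-/

namespace Pool.Agent.Results.MP_2c9be0_lc.GuessNotStrong

open Pool.Agent.R723.Guess

/-- There are a semiring `S`, a finite alphabet `A` and a function `f : A* → S` computed by a
finite weighted automaton over `S` which is guessable but not strongly guessable. -/
theorem result : ∃ (S : Type) (_ : Semiring S) (A : Type) (_ : Finite A) (f : List A → S),
    Recognizable f ∧ Guessable f ∧ ¬ StronglyGuessable f :=
  ⟨S0, inferInstance, Unit, inferInstance, f0, main1⟩

end Pool.Agent.Results.MP_2c9be0_lc.GuessNotStrong
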